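import Mathlib

set_option autoImplicit false

/-!
PROJECT RN (MP_bd0985_co, S11118), PLAN B (note 2712), certificate version.
Abstract nets, certificates, and the net of one generation.
-/

namespace H61RN

/-- A net: `R` rows (bottom to top), `P` letters. Letter `q` takes a particle from the row `lose q`
(if any) and puts it into the row `gain q` (if any): wires have both, sources only `to`, sinks only
`lose`, and an idle letter has none. Row `r` carries `base r` particles at the start and at the end. -/
structure Net where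
  R : ℕ
  P : ℕ
  base : ℕ → ℕ
  lose : ℕ → Option ℕ
  gain : ℕ → Option ℕ

/-- well formed nets: all rows exist, wires go one row up, nothing happens from time `P` on -/
structure Net.WF (N : Net) : Prop where
  lose_lt : ∀ q r, N.lose q = some r → r < N.R
  gain_lt : ∀ q r, N.gain q = some r → r < N.R
  up : ∀ q r r', N.lose q = some r → N.gain q = some r' → r' = r + 1
  idle : ∀ q, N.P ≤ q → N.lose q = none ∧ N.gain q = none
  base_le : ∀ r, r < N.R → N.base r ≤ 1
  some_letter : ∃ q, q < N.P ∧ (N.lose q ≠ none ∨ N.gain q ≠ none)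

/-- `q` is a real item (source or sink) -/
def Net.real (N : Net) (q : ℕ) : Prop := (N.lose q = none ∧ N.gain q ≠ none) ∨ (N.lose q ≠ none ∧ N.gain q = none)

/-- A certificate for the spots `ι` at the positions `(x q, y q)` of the letters: for every spot a
run (`e`: which letters move a particle, `n s r q`: number of particles on row `r` just before the
letter `q`), a spot vector `τ`, and a price `φ s r q` of row `r` at the letter `q`. -/
structure Cert (N : Net) (C : ℕ) (ι : Type) (x y : ℕ → ℝ) where
  e : ι → ℕ → Bool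
  n : ι → ℕ → ℕ → ℕ
  τ : ι → ℝ × ℝ
  φ : ι → ℕ → ℕ → ℝ
  n_zero : ∀ s r, r < N.R → n s r 0 = N.base r
  n_last : ∀ s r, r < N.R → n s r N.P = N.base r
  n_step : ∀ s r q, r < N.R → q < N.P →
    n s r (q + 1) + (if N.lose q = some r ∧ e s q = true then 1 else 0)
      = n s r q + (if N.gain q = some r ∧ e s q = true then 1 else 0)
  n_cap : ∀ s r q, r < N.R → q ≤ N.P → n s r q ≤ C
  wire : ∀ s q r r', q < N.P → N.lose q = some r → N.gain q = some r' → φ s r q = φ s r' q
  src : ∀ s q r, q < N.P → N.lose q = none → N.gain q = some r →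
    (e s q = true ∧ (τ s).1 * x q + (τ s).2 * y q < φ s r q) ∨
    (e s q = false ∧ φ s r q < (τ s).1 * x q + (τ s).2 * y q)
  snk : ∀ s q r, q < N.P → N.lose q = some r → N.gain q = none →
    (e s q = true ∧ φ s r q < (τ s).1 * x q + (τ s).2 * y q) ∨
    (e s q = false ∧ (τ s).1 * x q + (τ s).2 * y q < φ s r q)
  mono : ∀ s s' r q, r < N.R → q + 1 < N.P → n s r (q + 1) < n s' r (q + 1) →
    φ s r (q + 1) - φ s r q ≤ φ s' r (q + 1) - φ s' r q
  inj : ∀ s s', s ≠ s' → ∃ q, q < N.P ∧ N.real q ∧ e s q ≠ e s' q

/-- The inductive property: the `y` coordinates depend only on a bound for the `x` coordinates. -/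
def Good (N : Net) (C : ℕ) (ι : Type) : Prop :=
  ∀ X : ℝ, ∃ y : ℕ → ℝ, ∀ x : ℕ → ℝ, 1 ≤ x 0 → (∀ q, x q + 1 ≤ x (q + 1)) →
    (∀ q, q < N.P → x q ≤ X) → Nonempty (Cert N C ι x y)

/-! ### the net of one generation -/

/-- number of rows per old row -/
abbrev D (K : ℕ) : ℕ := 2 * K + 1

/-- number of letters per cell -/
abbrev Bs (K : ℕ) : ℕ := 6 * K + 3

/-- index (birth level) of the new row of class `c`: `c < K` are the rows below the old row
(class `K`), `K < c` the rows above -/
def jj (K c : ℕ) : ℕ := if c < K then c else 2 * K - c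

/-- number of cells in front of the old word, and also behind it -/
def nL (K : ℕ) (V : Net) : ℕ := V.R * D K * 2 ^ K

def vfr (K : ℕ) (V : Net) (p : ℕ) : Option ℕ :=
  if nL K V ≤ p ∧ p < nL K V + V.P then V.lose (p - nL K V) else none

def vto (K : ℕ) (V : Net) (p : ℕ) : Option ℕ :=
  if nL K V ≤ p ∧ p < nL K V + V.P then V.gain (p - nL K V) else none

/-- the row of the source in slot 0 of the cell `p` (its level is `log2 (2^K - 1 - p % 2^K)`) -/
def Lrow (K : ℕ) (V : Net) (p : ℕ) : Option ℕ :=
  if p < nL K V ∧ (p / 2 ^ K) % D K ≠ K ∧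
      2 ^ (jj K ((p / 2 ^ K) % D K) + 1) ≤ 2 ^ K - 1 - p % 2 ^ K
  then some (p / 2 ^ K) else none

/-- the row of the sink in the last slot of the cell `p` (level `log2 ((p - nL - P) % 2^K)`) -/
def Rrow (K : ℕ) (V : Net) (p : ℕ) : Option ℕ :=
  if nL K V + V.P ≤ p ∧ p - (nL K V + V.P) < nL K V ∧
      ((p - (nL K V + V.P)) / 2 ^ K) % D K ≠ K ∧
      2 ^ (jj K (((p - (nL K V + V.P)) / 2 ^ K) % D K) + 1) ≤ (p - (nL K V + V.P)) % 2 ^ K
  then some ((p - (nL K V + V.P)) / 2 ^ K) else none

/-- `lose` of slot `b` of cell `p`. Slots: `0` front source; `1..K` sources e of the rows above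
(class `b+K`); `K+1..2K` sources e of the rows below (class `b-K-1`); `2K+1..3K` wires below
(from class `3K-b` to `3K-b+1`); `3K+1..4K` wires above (from class `b-2K-1` to `b-2K`); `4K+1` the
old letter between the outermost rows; `4K+2..5K+1` sinks f of the rows above (class `b-3K-1`);
`5K+2..6K+1` sinks f of the rows below (class `b-5K-2`); `6K+2` end sink. -/
def gfr (K : ℕ) (V : Net) (p b : ℕ) : Option ℕ :=
  if b < 2 * K + 1 then none
  else if b < 3 * K + 1 then (vto K V p).map (fun r => r * D K + (3 * K - b))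
  else if b < 4 * K + 2 then (vfr K V p).map (fun r => r * D K + (b - (2 * K + 1)))
  else if b < 5 * K + 2 then (vfr K V p).map (fun r => r * D K + (b - (3 * K + 1)))
  else if b < 6 * K + 2 then (vto K V p).map (fun r => r * D K + (b - (5 * K + 2)))
  else Rrow K V p

/-- `gain` of slot `b` of cell `p` -/
def gto (K : ℕ) (V : Net) (p b : ℕ) : Option ℕ :=
  if b = 0 then Lrow K V p
  else if b < K + 1 then (vfr K V p).map (fun r => r * D K + (b + K))
  else if b < 2 * K + 1 then (vto K V p).map (fun r => r * D K + (b - (K + 1)))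
  else if b < 3 * K + 1 then (vto K V p).map (fun r => r * D K + (3 * K - b + 1))
  else if b < 4 * K + 1 then (vfr K V p).map (fun r => r * D K + (b - 2 * K))
  else if b = 4 * K + 1 then (vto K V p).map (fun r => r * D K)
  else none

/-- one generation -/
def gen (K : ℕ) (V : Net) : Net where
  R := V.R * D K
  P := (2 * nL K V + V.P) * Bs K
  base ρ := if ρ % D K < K then 1 else if ρ % D K = K then V.base (ρ / D K) else 0
  lose q := if q < (2 * nL K V + V.P) * Bs K then gfr K V (q / Bs K) (q % Bs K) else none
  gain q := if q < (2 * nL K V + V.P) * Bs K then gto K V (q / Bs K) (q % Bs K) else none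

/-- the start: one row, one sink above it -/
def net0 : Net where
  R := 1
  P := 1
  base _ := 0
  lose q := if q = 0 then some 0 else none
  gain _ := none

def net (K : ℕ) : ℕ → Net
  | 0 => net0
  | g + 1 => gen K (net K g)

/-- the spots of `net K g` -/
def Spots (K : ℕ) : ℕ → Type
  | 0 => Unit
  | g + 1 => Fin (2 ^ K) × Spots K g

end H61RN
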